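import Pool.Agent.helper99.WN.SpecA

/-! Row wn:RR. -/

set_option autoImplicit false

open Classical

namespace Pool.Agent.WN

theorem RR_step {V : Type} {k : ℕ} {R : V → Lt k → V → Prop} (hD : Det R) (hS : Sym R)
    {l l' : List (Lt k)} (h : FreeGroup.Red.Step l l') {v v' : V} (hr : Rd R v l v') : Rd R v l' v' := by
  obtain ⟨⟩ := h
  rename_i L₁ L₂ x b
  rw [rd_append_iff] at hr ⊢
  obtain ⟨v1, h1, h2⟩ := hr
  refine ⟨v1, h1, ?_⟩
  obtain ⟨v2, h3, v3, h4, h5⟩ := h2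
  have h6 := hS v1 (x, b) v2 h3
  have h7 : v1 = v3 := hD v2 (iv (x, b)) v1 v3 h6 h4
  rw [h7]
  exact h5

theorem RR_red {V : Type} {k : ℕ} {R : V → Lt k → V → Prop} (hD : Det R) (hS : Sym R)
    {l l' : List (Lt k)} (h : FreeGroup.Red l l') {v v' : V} (hr : Rd R v l v') : Rd R v l' v' := by
  induction h with
  | refl => exact hr
  | tail _ hstep ih => exact RR_step hD hS hstep ih

theorem RR_first {V : Type} {k : ℕ} {R : V → Lt k → V → Prop} (hD : Det R) (hS : Sym R)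
    (l : List (Lt k)) (v v' : V) (hr : Rd R v l v') : Rd R v (FreeGroup.mk l).toWord v' := by
  rw [FreeGroup.toWord_mk]
  exact RR_red hD hS FreeGroup.reduce.red hr

theorem RR_list {V : Type} {k : ℕ} (E : Gr V k) {a b : V} {h : Fr k} (hp : PL (lf E) a b h) :
    ∃ l : List (Lt k), FreeGroup.mk l = h ∧ Rd (Rl E) a l b := by
  induction hp with
  | nil => exact ⟨[], rfl, rfl⟩
  | fwd hp he ih =>
    obtain ⟨l, h1, h2⟩ := ih
    obtain ⟨e, he1, he2⟩ := he
    rw [Prod.mk.injEq, Prod.mk.injEq] at he2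
    obtain ⟨e1, e2, e3⟩ := he2
    refine ⟨l ++ [(e.2.1, true)], ?_, ?_⟩
    · rw [← FreeGroup.mul_mk, h1, e2]
      rfl
    · rw [rd_append_iff]
      refine ⟨_, h2, ?_⟩
      refine ⟨_, ?_, rfl⟩
      rw [Rl, if_pos rfl, e1, e3]
      exact he1
  | bwd hp he ih =>
    obtain ⟨l, h1, h2⟩ := ih
    obtain ⟨e, he1, he2⟩ := he
    rw [Prod.mk.injEq, Prod.mk.injEq] at he2
    obtain ⟨e1, e2, e3⟩ := he2
    refine ⟨l ++ [(e.2.1, false)], ?_, ?_⟩
    · rw [← FreeGroup.mul_mk, h1, e2]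
      rfl
    · rw [rd_append_iff]
      refine ⟨_, h2, ?_⟩
      refine ⟨_, ?_, rfl⟩
      rw [Rl, if_neg (by simp), e1, e3]
      exact he1

theorem RR : RR_stmt := by
  refine ⟨fun V k R hD hS l v v' hr => RR_first hD hS l v v' hr, fun V k E hE a b h hp => ?_⟩
  obtain ⟨l, h1, h2⟩ := RR_list E hp
  rw [← h1]
  exact RR_first hE rl_sym l a b h2

end Pool.Agent.WN
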